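import Pool.Agent.Helper28.BPack.ModMain
import Pool.Agent.Helper28.BPack.Main

/-!
# Boolean packings of rank four geometric lattices with a modular line

A line is an element of height two, a plane a coatom.  Let `u` and `v` be two lines of a rank four
geometric lattice whose join is the top.  We prove that the lattice has a Boolean packing if every
plane through `u` with two points outside `u` meets `v`, and no line which meets `u` but misses `v`
has more points than `u`.  If `v` is a modular line then one can take for `u` a longest line among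
those missing `v`, so this contains all rank four geometric lattices with a modular line, in
particular the supersolvable ones and the modular ones.
-/

set_option autoImplicit false

namespace Pool.Agent.Results.MP_47cd0b_co.SkewLines

open Pool.Agent.Helper28.BPack

theorem card_At {L : Type} [Lattice L] [BoundedOrder L] [Fintype L] [IsUpperModularLattice L]
    (w : L) : Nat.card {a : L // IsAtom a ∧ a ≤ w} = (Skew.At w).card := by
  classical
  rw [Nat.card_eq_fintype_card, Fintype.card_subtype]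
  apply congrArg
  ext a
  simp [Skew.mem_At]

/-- A modular line gives a pair of skew lines as in the main theorem. -/
theorem of_modular_line {L : Type} [Lattice L] [BoundedOrder L] [Fintype L]
    [IsUpperModularLattice L]
    (hat : ∀ x : L, ∃ s : Finset L, (∀ a ∈ s, IsAtom a) ∧ s.sup id = x)
    (hr : Order.height (⊤ : L) = 4) {v : L} (hv : Order.height v = 2)
    (hmod : ∀ P : L, P ⋖ ⊤ → P ⊓ v ≠ ⊥) :
    ∃ u v : L, Order.height u = 2 ∧ Order.height v = 2 ∧ u ⊔ v = ⊤ ∧
      (∀ P, P ⋖ ⊤ → u ≤ P → P ⊓ v = ⊥ → ∀ q q', IsAtom q → IsAtom q' → q ≤ P → q' ≤ P →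
        ¬ q ≤ u → ¬ q' ≤ u → q = q') ∧
      (∀ w, Order.height w = 2 → w ⊓ u ≠ ⊥ → w ⊓ v = ⊥ →
        Nat.card {a : L // IsAtom a ∧ a ≤ w} ≤ Nat.card {a : L // IsAtom a ∧ a ≤ u}) := by
  classical
  have hr' : rk (⊤ : L) = 4 := by
    rw [← coe_rk] at hr
    exact_mod_cast hr
  have hv' : rk v = 2 := by
    rw [← coe_rk] at hv
    exact_mod_cast hv
  -- a line missing `v`
  obtain ⟨a, ha, -, hav⟩ := exists_atom hat (x := v) (y := ⊤) (fun h => by
    have := rk_mono h
    omega)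
  have h3 : rk (v ⊔ a) = 3 := by rw [rk_sup_atom ha hav, hv']
  obtain ⟨b, hb, -, hbv⟩ := exists_atom hat (x := v ⊔ a) (y := ⊤) (fun h => by
    have := rk_mono h
    omega)
  have hab : a ≠ b := fun h => hbv (h ▸ le_sup_right)
  have hlab : rk (a ⊔ b) = 2 := rk_line ha hb hab
  have htop : (a ⊔ b) ⊔ v = ⊤ := by
    apply eq_of_le_of_rk le_top
    have h4 : (a ⊔ b) ⊔ v = v ⊔ a ⊔ b := by rw [sup_comm, sup_assoc]
    rw [h4, rk_sup_atom hb hbv, h3, hr']
  have hskew : ∀ w, rk w = 2 → w ⊔ v = ⊤ → w ⊓ v = ⊥ := by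
    intro w hw hwv
    have h : Skew w v := ⟨hr', hw, hv', hwv⟩
    by_contra hne
    obtain ⟨c, hc, hcw, -⟩ := exists_atom hat (x := ⊥) (y := w ⊓ v) (fun h => hne (le_bot_iff.mp h))
    exact h.inf_bot hat hc (hcw.trans inf_le_left) (hcw.trans inf_le_right)
  obtain ⟨u, huS, humax⟩ := Finset.exists_max_image
    (Finset.univ.filter (fun w : L => rk w = 2 ∧ w ⊔ v = ⊤)) (fun w => (Skew.At w).card)
    ⟨a ⊔ b, by rw [Finset.mem_filter]; exact ⟨Finset.mem_univ _, hlab, htop⟩⟩
  rw [Finset.mem_filter] at huS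
  obtain ⟨-, hu, huv⟩ := huS
  refine ⟨u, v, by rw [← coe_rk, hu]; rfl, hv, huv, ?_, ?_⟩
  · intro P hP _ hPv
    exact absurd hPv (hmod P hP)
  · intro w hw _ hwv
    rw [card_At, card_At]
    apply humax
    rw [Finset.mem_filter]
    have hw' : rk w = 2 := by
      rw [← coe_rk] at hw
      exact_mod_cast hw
    refine ⟨Finset.mem_univ _, hw', ?_⟩
    -- a line missing `v` is skew to `v`, by modularity
    by_contra hne
    obtain ⟨t, ht, -, htwv⟩ := exists_atom hat (x := w ⊔ v) (y := ⊤)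
      (fun h => hne (top_unique h))
    have htw : ¬ t ≤ w := fun h => htwv (h.trans le_sup_left)
    have hP : rk (w ⊔ t) = 3 := by rw [rk_sup_atom ht htw, hw']
    obtain ⟨c, hc, hcP, -⟩ := exists_atom hat (x := ⊥) (y := (w ⊔ t) ⊓ v)
      (fun h => hmod (w ⊔ t) (covBy_of_rk le_top (by rw [hr', hP])) (le_bot_iff.mp h))
    have hcw : ¬ c ≤ w := by
      intro h
      have h1 : c ≤ w ⊓ v := le_inf h (hcP.trans inf_le_right)
      rw [hwv] at h1
      exact hc.1 (le_bot_iff.mp h1)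
    have h5 : w ⊔ c = w ⊔ t := by
      apply eq_of_le_of_rk (sup_le le_sup_left (hcP.trans inf_le_left))
      rw [hP, rk_sup_atom hc hcw, hw']
    apply htwv
    have h6 : t ≤ w ⊔ t := le_sup_right
    rw [← h5] at h6
    exact h6.trans (sup_le le_sup_left ((hcP.trans inf_le_right).trans le_sup_right))

/-- **Main theorem.** -/
theorem result :
    ∀ (L : Type) [Lattice L] [BoundedOrder L] [Fintype L] [IsUpperModularLattice L],
      (∀ x : L, ∃ s : Finset L, (∀ a ∈ s, IsAtom a) ∧ s.sup id = x) →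
      Order.height (⊤ : L) = 4 →
      ((∃ v : L, Order.height v = 2 ∧ ∀ P : L, P ⋖ ⊤ → P ⊓ v ≠ ⊥) ∨
        ∃ u v : L, Order.height u = 2 ∧ Order.height v = 2 ∧ u ⊔ v = ⊤ ∧
          (∀ P, P ⋖ ⊤ → u ≤ P → P ⊓ v = ⊥ → ∀ q q', IsAtom q → IsAtom q' → q ≤ P → q' ≤ P →
            ¬ q ≤ u → ¬ q' ≤ u → q = q') ∧
          (∀ w, Order.height w = 2 → w ⊓ u ≠ ⊥ → w ⊓ v = ⊥ →
            Nat.card {a : L // IsAtom a ∧ a ≤ w} ≤ Nat.card {a : L // IsAtom a ∧ a ≤ u})) →
      ∃ (t : ℕ) (n : Fin t → ℕ) (φ : ∀ i : Fin t, Set (Fin (n i)) → L),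
        (∀ i, Function.Injective (φ i)) ∧
        (∀ i (a b : Set (Fin (n i))), a ⋖ b → φ i a ⋖ φ i b) ∧
        (∀ i, Order.height (⊤ : L) ≤ Order.height (φ i ⊥) + Order.height (φ i ⊤)) ∧
        (∀ x : L, ∃! p : (Σ i : Fin t, Set (Fin (n i))), φ p.1 p.2 = x) := by
  intro L _ _ _ _ hat hr h
  have h' : ∃ u v : L, Order.height u = 2 ∧ Order.height v = 2 ∧ u ⊔ v = ⊤ ∧
      (∀ P, P ⋖ ⊤ → u ≤ P → P ⊓ v = ⊥ → ∀ q q', IsAtom q → IsAtom q' → q ≤ P → q' ≤ P →
        ¬ q ≤ u → ¬ q' ≤ u → q = q') ∧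
      (∀ w, Order.height w = 2 → w ⊓ u ≠ ⊥ → w ⊓ v = ⊥ →
        Nat.card {a : L // IsAtom a ∧ a ≤ w} ≤ Nat.card {a : L // IsAtom a ∧ a ≤ u}) := by
    rcases h with ⟨v, hv, hmod⟩ | h
    · exact of_modular_line hat hr hv hmod
    · exact h
  obtain ⟨u, v, hu, hv, huv, hP, hlen⟩ := h'
  have hr' : rk (⊤ : L) = 4 := by
    rw [← coe_rk] at hr
    exact_mod_cast hr
  have hu' : rk u = 2 := by
    rw [← coe_rk] at hu
    exact_mod_cast hu
  have hv' : rk v = 2 := by
    rw [← coe_rk] at hv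
    exact_mod_cast hv
  apply HasPack.to_packing
  apply Skew.hasPack ⟨hr', hu', hv', huv⟩ hat
  · intro P huP hP3
    exact hP P (covBy_of_rk le_top (by rw [hr', hP3])) huP
  · intro w hw h1 h2
    have h3 := hlen w (by rw [← coe_rk, hw]; rfl) h1 h2
    rw [card_At, card_At] at h3
    exact h3

end Pool.Agent.Results.MP_47cd0b_co.SkewLines
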