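import Pool.Agent.Helper50.Sparse.UniformF

/-!
# Boolean packings of geometric lattices with a flag of locally free atoms down to a contraction
which has rank three or many points and small flats
-/

set_option autoImplicit false

namespace Pool.Agent.Results.MP_47cd0b_co.FlagToSparse

open Pool.Agent.Helper28.BPack Pool.Agent.Helper50.Sparse

/-- A paving geometric lattice has a flag of locally free atoms. -/
theorem flag_of_paving {L : Type} [Lattice L] [BoundedOrder L] [Fintype L]
    [IsUpperModularLattice L]
    (hat : ∀ x : L, ∃ s : Finset L, (∀ a ∈ s, IsAtom a) ∧ s.sup id = x)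
    (hr : 4 ≤ Order.height (⊤ : L))
    (hpav : ∀ C : Finset L, (∀ a ∈ C, IsAtom a) → (C.card : ℕ∞) < Order.height (⊤ : L) →
      Order.height (C.sup id) = C.card) :
    ∃ (m : ℕ) (e : ℕ → L), Order.height (⊤ : L) = m + 3 ∧
      ∀ j < m, IsAtom (e j) ∧ ¬ e j ≤ (Finset.range j).sup e ∧
        ∀ C : Finset L, (∀ b ∈ C, IsAtom b ∧ ¬ e j ≤ (Finset.range j).sup e ⊔ b) →
          e j ≤ (Finset.range j).sup e ⊔ C.sup id → m + 5 ≤ 2 * C.card + j := by
  classical
  have hrk : 4 ≤ rk (⊤ : L) := by
    rw [← coe_rk] at hr
    exact_mod_cast hr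
  obtain ⟨m, hm⟩ : ∃ m, rk (⊤ : L) = m + 3 := ⟨rk (⊤ : L) - 3, by omega⟩
  have hpav' : ∀ C : Finset L, (∀ a ∈ C, IsAtom a) → C.card < m + 3 → rk (C.sup id) = C.card := by
    intro C hC hc
    have h1 : (C.card : ℕ∞) < Order.height (⊤ : L) := by
      rw [← coe_rk, hm]
      exact_mod_cast hc
    have h2 := hpav C hC h1
    rw [← coe_rk] at h2
    exact_mod_cast h2
  -- a maximal independent sequence
  have hseq : ∀ k, k ≤ m → ∃ e : ℕ → L, ∀ j < k, IsAtom (e j) ∧ ¬ e j ≤ (Finset.range j).sup e := by
    intro k
    induction k with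
    | zero => intro _; exact ⟨fun _ => ⊥, fun j hj => absurd hj (Nat.not_lt_zero j)⟩
    | succ k ih =>
      intro hk
      obtain ⟨e, he⟩ := ih (by omega)
      have h1 : rk ((Finset.range k).sup e) = k :=
        rk_range_sup k e (fun j hj => (he j hj).1) (fun j hj => (he j hj).2) k le_rfl
      have h2 : (Finset.range k).sup e ≠ ⊤ := by
        intro h
        rw [h, hm] at h1
        omega
      obtain ⟨s, hs, hst⟩ := hat ⊤
      have h3 : ∃ b ∈ s, ¬ b ≤ (Finset.range k).sup e := by
        by_contra h
        push Not at h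
        apply h2
        apply top_unique
        rw [← hst]
        exact Finset.sup_le h
      obtain ⟨b, hbs, hb⟩ := h3
      refine ⟨fun j => if j < k then e j else b, ?_⟩
      have h4 : ∀ j, j ≤ k → (Finset.range j).sup (fun j => if j < k then e j else b) =
          (Finset.range j).sup e := by
        intro j hj
        apply Finset.sup_congr rfl
        intro i hi
        have := Finset.mem_range.mp hi
        rw [if_pos (by omega)]
      intro j hj
      rw [h4 j (by omega)]
      by_cases hjk : j < k
      · simp only [if_pos hjk]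
        exact he j hjk
      · simp only [if_neg hjk]
        have : j = k := by omega
        subst this
        exact ⟨hs b hbs, hb⟩
  obtain ⟨e, he⟩ := hseq m le_rfl
  have hrke := rk_range_sup m e (fun j hj => (he j hj).1) (fun j hj => (he j hj).2)
  refine ⟨m, e, by rw [← coe_rk, hm]; push_cast; rfl, ?_⟩
  intro j hj
  refine ⟨(he j hj).1, (he j hj).2, ?_⟩
  intro C hC heC
  by_contra hcon
  push Not at hcon
  -- the set `D` of the first `j` atoms together with `C`
  have hD1 : ((Finset.range j).image e ∪ C).sup id = (Finset.range j).sup e ⊔ C.sup id := by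
    rw [Finset.sup_union, Finset.sup_image]
    rfl
  have hDc : ((Finset.range j).image e ∪ C).card ≤ j + C.card := by
    refine (Finset.card_union_le _ _).trans ?_
    have := Finset.card_image_le (s := Finset.range j) (f := e)
    rw [Finset.card_range] at this
    omega
  have hDat : ∀ a ∈ (Finset.range j).image e ∪ C, IsAtom a := by
    intro a ha
    rcases Finset.mem_union.mp ha with h | h
    · obtain ⟨i, hi, rfl⟩ := Finset.mem_image.mp h
      exact (he i (by have := Finset.mem_range.mp hi; omega)).1
    · exact (hC a h).1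
  have hnot : e j ∉ (Finset.range j).image e ∪ C := by
    intro h
    rcases Finset.mem_union.mp h with h | h
    · obtain ⟨i, hi, hie⟩ := Finset.mem_image.mp h
      apply (he j hj).2
      rw [← hie]
      exact Finset.le_sup (f := e) hi
    · exact (hC _ h).2 le_sup_right
  have h1 := hpav' _ hDat (by omega)
  have h2 := hpav' (insert (e j) ((Finset.range j).image e ∪ C)) (by
    intro a ha
    rcases Finset.mem_insert.mp ha with rfl | h
    · exact (he j hj).1
    · exact hDat a h) (by rw [Finset.card_insert_of_notMem hnot]; omega)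
  rw [Finset.card_insert_of_notMem hnot, Finset.sup_insert, hD1, id,
    sup_eq_right.mpr heC, ← hD1, h1] at h2
  omega

/-- **Main theorem.** Let `L` be a finite geometric lattice of rank `m + R` with a flag
`e 0, ..., e (m - 1)` of locally free atoms (`m = 0` is allowed), and let `f` be their join. Suppose
that the contraction of `L` by `f`, which has rank `R`, (1) has rank three; or (2) has at most `t`
points on each coatom and at least `t + 3 * 4 ^ R * t ^ ((R + 1) / 2)` points; or (3) is sparse with
respect to a finite family of atoms. Or suppose that `L` is paving of rank at least four. Then `L`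
has a Boolean packing. -/
theorem result :
    ∀ (L : Type) [Lattice L] [BoundedOrder L] [Fintype L] [IsUpperModularLattice L],
      (∀ x : L, ∃ s : Finset L, (∀ a ∈ s, IsAtom a) ∧ s.sup id = x) →
      ((∃ (m R : ℕ) (e : ℕ → L), Order.height (⊤ : L) = m + R ∧
          (∀ j < m, IsAtom (e j) ∧ ¬ e j ≤ (Finset.range j).sup e ∧
            ∀ C : Finset L, (∀ b ∈ C, IsAtom b ∧ ¬ e j ≤ (Finset.range j).sup e ⊔ b) →
              e j ≤ (Finset.range j).sup e ⊔ C.sup id → m + R + 2 ≤ 2 * C.card + j) ∧
          (R = 3 ∨
            (∃ t : ℕ, (∀ H : L, IsCoatom H → (Finset.range m).sup e ≤ H →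
                {u : L | (Finset.range m).sup e ⋖ u ∧ u ≤ H}.ncard ≤ t) ∧
              t + 3 * 4 ^ R * t ^ ((R + 1) / 2) ≤ {u : L | (Finset.range m).sup e ⋖ u}.ncard) ∨
            (∃ (N : ℕ) (c : Fin N → L) (D : ℕ), (∀ j, IsAtom (c j)) ∧ 0 < D ∧
              (∀ H : L, IsCoatom H → (Finset.range m).sup e ≤ H →
                D ≤ {j : Fin N | ¬ c j ≤ H}.ncard) ∧
              3 * R * N ≤ (3 * R + 1) * D ∧
              ∀ (G : L) (i k : ℕ), (Finset.range m).sup e ≤ G → Order.height G = m + k →
                i < k → k < R → i + k ≤ R →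
                3 * 4 ^ R * {F : L | (Finset.range m).sup e ≤ F ∧ F < G ∧
                  Order.height F = m + i}.ncard *
                  {j : Fin N | c j ≤ G}.ncard ^ (k - i) ≤ D ^ (k - i)))) ∨
        (4 ≤ Order.height (⊤ : L) ∧
          ∀ C : Finset L, (∀ a ∈ C, IsAtom a) → (C.card : ℕ∞) < Order.height (⊤ : L) →
            Order.height (C.sup id) = C.card)) →
      ∃ (t : ℕ) (n : Fin t → ℕ) (φ : ∀ i : Fin t, Set (Fin (n i)) → L),
        (∀ i, Function.Injective (φ i)) ∧
        (∀ i (a b : Set (Fin (n i))), a ⋖ b → φ i a ⋖ φ i b) ∧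
        (∀ i, Order.height (⊤ : L) ≤ Order.height (φ i ⊥) + Order.height (φ i ⊤)) ∧
        (∀ x : L, ∃! p : (Σ i : Fin t, Set (Fin (n i))), φ p.1 p.2 = x) := by
  classical
  intro L _ _ _ _ hat h
  have hflag : (∃ (m R : ℕ) (e : ℕ → L), Order.height (⊤ : L) = m + R ∧
          (∀ j < m, IsAtom (e j) ∧ ¬ e j ≤ (Finset.range j).sup e ∧
            ∀ C : Finset L, (∀ b ∈ C, IsAtom b ∧ ¬ e j ≤ (Finset.range j).sup e ⊔ b) →
              e j ≤ (Finset.range j).sup e ⊔ C.sup id → m + R + 2 ≤ 2 * C.card + j) ∧
          (R = 3 ∨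
            (∃ t : ℕ, (∀ H : L, IsCoatom H → (Finset.range m).sup e ≤ H →
                {u : L | (Finset.range m).sup e ⋖ u ∧ u ≤ H}.ncard ≤ t) ∧
              t + 3 * 4 ^ R * t ^ ((R + 1) / 2) ≤ {u : L | (Finset.range m).sup e ⋖ u}.ncard) ∨
            (∃ (N : ℕ) (c : Fin N → L) (D : ℕ), (∀ j, IsAtom (c j)) ∧ 0 < D ∧
              (∀ H : L, IsCoatom H → (Finset.range m).sup e ≤ H →
                D ≤ {j : Fin N | ¬ c j ≤ H}.ncard) ∧
              3 * R * N ≤ (3 * R + 1) * D ∧
              ∀ (G : L) (i k : ℕ), (Finset.range m).sup e ≤ G → Order.height G = m + k →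
                i < k → k < R → i + k ≤ R →
                3 * 4 ^ R * {F : L | (Finset.range m).sup e ≤ F ∧ F < G ∧
                  Order.height F = m + i}.ncard *
                  {j : Fin N | c j ≤ G}.ncard ^ (k - i) ≤ D ^ (k - i)))) := by
    rcases h with h | ⟨h4, hp⟩
    · exact h
    · obtain ⟨m, e, hm, he⟩ := flag_of_paving hat h4 hp
      exact ⟨m, 3, e, hm, he, Or.inl rfl⟩
  obtain ⟨m, R, e, hm, he, hbase⟩ := hflag
  have hm' : rk (⊤ : L) = m + R := by
    rw [← coe_rk] at hm
    exact_mod_cast hm
  have hrke := rk_range_sup m e (fun j hj => (he j hj).1) (fun j hj => (he j hj).2.1)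
  have hrm := hrke m le_rfl
  have hco : ∀ x : L, x ≠ ⊤ → ∃ H : L, IsCoatom H ∧ x ≤ H := by
    intro x hx
    rcases IsCoatomic.eq_top_or_exists_le_coatom x with h1 | h1
    · exact absurd h1 hx
    · exact h1
  apply HasPack.to_packing
  apply hasPack_flag hat m e (fun j hj => (he j hj).1) (fun j hj => (he j hj).2.1)
  · intro j hj C hC1 hC2 hC3
    have h1 := (he j hj).2.2 C (fun b hb => ⟨hC1 b hb, hC2 b hb⟩) hC3
    rw [hrke j (by omega), hm']
    omega
  · rcases hbase with h3 | ⟨t, ht, hn⟩ | ⟨N, c, D, hc, hD0, hD, h2, h3⟩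
    · apply hasPack_three hat
      rw [hrm, hm', h3]
    · apply hasPack_uniformF hat (R := R) (by rw [hrm, hm']) t
      · intro x hfx hx
        obtain ⟨H, hH, hxH⟩ := hco x hx
        refine le_trans ?_ (ht H hH (hfx.trans hxH))
        rw [← Finset.card_map (Function.Embedding.subtype _), ← Set.ncard_coe_finset]
        apply Set.ncard_le_ncard _ (Set.toFinite _)
        intro a ha
        rw [Finset.mem_coe, Finset.mem_map] at ha
        obtain ⟨j, hj, rfl⟩ := ha
        exact ⟨j.2, (Finset.mem_filter.mp hj).2.trans hxH⟩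
      · have h1 : {u : L | (Finset.range m).sup e ⋖ u}.ncard =
            Fintype.card {u : L // (Finset.range m).sup e ⋖ u} := by
          rw [← Nat.card_coe_set_eq, Nat.card_eq_fintype_card]
          exact Fintype.card_congr (Equiv.refl _)
        rw [h1] at hn
        exact hn
    · have hcard : ∀ (P : Fin N → Prop) [DecidablePred P],
          {j : Fin N | P j}.ncard = (Finset.univ.filter P).card := by
        intro P _
        rw [← Set.ncard_coe_finset]
        congr 1
        ext j
        simp
      apply hasPack_sparse (c := c) hc (R := R) (by rw [hrm, hm']) D hD0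
      · intro x hfx hx
        obtain ⟨H, hH, hxH⟩ := hco x hx
        refine (hD H hH (hfx.trans hxH)).trans ?_
        rw [hcard]
        apply Finset.card_le_card
        intro j hj
        rw [Finset.mem_filter] at hj ⊢
        exact ⟨Finset.mem_univ _, fun h => hj.2 (h.trans hxH)⟩
      · rw [Fintype.card_fin]
        exact h2
      · intro G i k hfG hk hik hkr hik2
        rw [hrm] at hk
        have h4 := h3 G i k hfG (by rw [← coe_rk, hk]; push_cast; rfl) hik hkr hik2
        rw [hcard] at h4
        have h5 : {F : L | (Finset.range m).sup e ≤ F ∧ F < G ∧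
            Order.height F = m + i}.ncard =
            (Finset.univ.filter (fun F : L => (Finset.range m).sup e ≤ F ∧ F < G ∧
              rk F = rk ((Finset.range m).sup e) + i)).card := by
          rw [← Set.ncard_coe_finset]
          congr 1
          ext F
          rw [Finset.mem_coe, Finset.mem_filter, hrm]
          constructor
          · rintro ⟨h8, h6, h7⟩
            refine ⟨Finset.mem_univ _, h8, h6, ?_⟩
            rw [← coe_rk] at h7
            exact_mod_cast h7
          · rintro ⟨_, h8, h6, h7⟩
            exact ⟨h8, h6, by rw [← coe_rk, h7]; push_cast; rfl⟩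
        rw [h5] at h4
        exact h4

end Pool.Agent.Results.MP_47cd0b_co.FlagToSparse
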