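import Pool.Agent.Helper28.BPack.Frame

/-!
# Boolean packings of jointed frame lattices

A geometric lattice is a jointed frame lattice if it has a basis `B` of atoms (the joints) such that
every atom lies below the join of two elements of `B`; examples are the lattices of flats of all
biased graphs with a half edge at each vertex: partition lattices, Dowling lattices, bond lattices
of graphs with a vertex adjacent to all the others.  We prove that all of them, of any rank, have
Boolean packings.  More generally it is enough that the contraction by a flag of locally free atoms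
is of this kind.
-/

set_option autoImplicit false

namespace Pool.Agent.Results.MP_47cd0b_co.JointedFrame

open Pool.Agent.Helper28.BPack

/-- **Main theorem.** -/
theorem result :
    ∀ (L : Type) [Lattice L] [BoundedOrder L] [Fintype L] [IsUpperModularLattice L],
      (∀ x : L, ∃ s : Finset L, (∀ a ∈ s, IsAtom a) ∧ s.sup id = x) →
      (∃ (k : ℕ) (e : ℕ → L) (B : Finset L),
        (∀ j < k, IsAtom (e j) ∧ ¬ e j ≤ (Finset.range j).sup e ∧
          ∀ C : Finset L, (∀ b ∈ C, IsAtom b ∧ ¬ e j ≤ (Finset.range j).sup e ⊔ b) →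
            e j ≤ (Finset.range j).sup e ⊔ C.sup id → k + B.card + 2 ≤ 2 * C.card + j) ∧
        (∀ b ∈ B, IsAtom b) ∧ Order.height (⊤ : L) = k + B.card ∧
        (Finset.range k).sup e ⊔ B.sup id = ⊤ ∧
        ∀ p : L, IsAtom p → ∃ b ∈ B, ∃ b' ∈ B, p ≤ (Finset.range k).sup e ⊔ b ⊔ b') →
      ∃ (t : ℕ) (n : Fin t → ℕ) (φ : ∀ i : Fin t, Set (Fin (n i)) → L),
        (∀ i, Function.Injective (φ i)) ∧
        (∀ i (a b : Set (Fin (n i))), a ⋖ b → φ i a ⋖ φ i b) ∧
        (∀ i, Order.height (⊤ : L) ≤ Order.height (φ i ⊥) + Order.height (φ i ⊤)) ∧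
        (∀ x : L, ∃! p : (Σ i : Fin t, Set (Fin (n i))), φ p.1 p.2 = x) := by
  intro L _ _ _ _ hat h
  obtain ⟨k, e, B, he, hBat, hr, hBt, hfr⟩ := h
  have hr' : rk (⊤ : L) = k + B.card := by
    rw [← coe_rk] at hr
    exact_mod_cast hr
  have hrke := rk_range_sup k e (fun j hj => (he j hj).1) (fun j hj => (he j hj).2.1)
  apply HasPack.to_packing
  apply hasPack_flag hat k e (fun j hj => (he j hj).1) (fun j hj => (he j hj).2.1)
  · intro j hj C hC1 hC2 hC3
    have h1 := (he j hj).2.2 C (fun b hb => ⟨hC1 b hb, hC2 b hb⟩) hC3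
    rw [hrke j (by omega), hr']
    omega
  · exact hasPack_frame hat ⟨hBat, by rw [hrke k le_rfl, hr'], hBt⟩ hfr

end Pool.Agent.Results.MP_47cd0b_co.JointedFrame
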