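import Pool.Agent.Helper72.MB.Pack

/-!
# Symmetric Boolean packings of modular geometric lattices

Every finite modular geometric lattice, of any rank, for instance the lattice of subspaces of a
finite vector space, is a disjoint union of images of injective cover-preserving maps from Boolean
lattices, each symmetric about the middle rank.
-/

set_option autoImplicit false

namespace Pool.Agent.Results.MP_47cd0b_co.ModularLattices

open Pool.Agent.Helper28.BPack Pool.Agent.Helper72.MB

/-- **Main theorem.** -/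
theorem result :
    ∀ (L : Type) [Lattice L] [BoundedOrder L] [Fintype L] [IsModularLattice L],
      (∀ x : L, ∃ s : Finset L, (∀ a ∈ s, IsAtom a) ∧ s.sup id = x) →
      ∃ (t : ℕ) (n : Fin t → ℕ) (φ : ∀ i : Fin t, Set (Fin (n i)) → L),
        (∀ i, Function.Injective (φ i)) ∧
        (∀ i (a b : Set (Fin (n i))), a ⋖ b → φ i a ⋖ φ i b) ∧
        (∀ i, Order.height (φ i ⊥) + Order.height (φ i ⊤) = Order.height (⊤ : L)) ∧
        (∀ x : L, ∃! p : (Σ i : Fin t, Set (Fin (n i))), φ p.1 p.2 = x) := by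
  intro L _ _ _ _ hat
  classical
  have hs : Sep L := by
    intro x y hxy
    obtain ⟨s, hs, rfl⟩ := hat y
    by_contra hc
    push Not at hc
    apply hxy
    apply Finset.sup_le
    intro a ha
    exact hc a (hs a ha) (Finset.le_sup (f := id) ha)
  obtain ⟨ι, hι, p0, hg0, hN0, hinj0, hr0⟩ := ps_univ hs
  obtain ⟨t, ⟨σ⟩⟩ := Finite.exists_equiv_fin ι
  obtain ⟨p, hp⟩ : ∃ p : Fin t → Pc L, p = fun i => p0 (σ.symm i) := ⟨_, rfl⟩
  have hg : ∀ i, (p i).Good := by rw [hp]; exact fun i => hg0 _
  have hN : ∀ i, 2 * rk (p i).x + (p i).n = rk (⊤ : L) := by rw [hp]; exact fun i => hN0 _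
  have hsurj : ∀ z, ∃ i B, (p i).val B = z := by
    intro z
    have h1 : z ∈ Set.range (vals p0) := by rw [hr0]; trivial
    obtain ⟨⟨i, B⟩, hB⟩ := h1
    obtain ⟨i', rfl⟩ := σ.symm.surjective i
    rw [hp]
    exact ⟨i', B, hB⟩
  have hinj : ∀ i B i' B', (p i).val B = (p i').val B' → i = i' ∧ HEq B B' := by
    rw [hp]
    intro i B i' B' h
    have h1 : (⟨σ.symm i, B⟩ : Σ i, Finset (Fin (p0 i).n)) = ⟨σ.symm i', B'⟩ := hinj0 h
    obtain ⟨h2, h3⟩ := Sigma.mk.inj_iff.1 h1
    exact ⟨σ.symm.injective h2, h3⟩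
  clear hg0 hN0 hinj0 hr0 hp
  refine ⟨t, fun i => (p i).n, fun i S => (p i).val (Finset.univ.filter (fun j => j ∈ S)),
    ?_, ?_, ?_, ?_⟩
  · intro i S T h
    have h1 := (hg i).inj h
    ext j
    have h2 := Finset.ext_iff.mp h1 j
    simpa using h2
  · intro i S T hST
    obtain ⟨j, hj, hjT⟩ := Set.covBy_iff_exists_insert.mp hST
    have h1 : (Finset.univ.filter (fun k => k ∈ T)) =
        insert j (Finset.univ.filter (fun k => k ∈ S)) := by
      ext k
      rw [← hjT]
      simp
    have h2 : j ∉ (Finset.univ.filter (fun k => k ∈ S)) := by simpa using hj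
    change (p i).val (Finset.univ.filter (fun j => j ∈ S)) ⋖
      (p i).val (Finset.univ.filter (fun j => j ∈ T))
    rw [h1]
    exact (hg i).covBy h2
  · intro i
    have h1 : (Finset.univ.filter (fun j : Fin (p i).n => j ∈ (⊥ : Set _))) = ∅ := by
      ext j; simp
    have h2 : (Finset.univ.filter (fun j : Fin (p i).n => j ∈ (⊤ : Set _))) =
        Finset.univ := by
      ext j; simp
    change Order.height ((p i).val (Finset.univ.filter (fun j => j ∈ (⊥ : Set _)))) +
      Order.height ((p i).val (Finset.univ.filter (fun j => j ∈ (⊤ : Set _)))) =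
      Order.height (⊤ : L)
    rw [h1, h2, Pc.val_empty, ← coe_rk, ← coe_rk, ← coe_rk, (hg i).rk_val, Finset.card_univ,
      Fintype.card_fin]
    have h3 := hN i
    norm_cast
    omega
  · intro x
    obtain ⟨i, B, hB⟩ := hsurj x
    refine ⟨⟨i, {j | j ∈ B}⟩, ?_, ?_⟩
    · change (p i).val _ = x
      rw [← hB]
      congr 1
      ext j
      simp
    · rintro ⟨i', S⟩ hS
      change (p i').val (Finset.univ.filter (fun j => j ∈ S)) = x at hS
      obtain ⟨h1, h2⟩ := hinj _ _ _ _ (hS.trans hB.symm)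
      subst h1
      have h3 := eq_of_heq h2
      subst h3
      congr 1
      ext j
      simp

end Pool.Agent.Results.MP_47cd0b_co.ModularLattices
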