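import Pool.Agent.Helper38.Thick.Chain

/-!
# Boolean packings of rank four geometric lattices which can be peeled
-/

set_option autoImplicit false

namespace Pool.Agent.Results.MP_47cd0b_co.PeeledRankFour

open Pool.Agent.Helper28.BPack Pool.Agent.Helper61.Motz Pool.Agent.Helper38.Thick

section aux

variable {L : Type} [Lattice L] [BoundedOrder L] [Finite L] [IsUpperModularLattice L]

theorem core_of_thick [DecidableEq L] [DecidableRel (α := L) (· ≤ ·)] {A : Finset L}
    (hA : ∀ a ∈ A, IsAtom a) (h : Thick A) : Core A := by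
  intro p hp a ha b hb hab hpab
  by_contra hcon
  push Not at hcon
  have hap : a ≠ p := fun e => hpab (e ▸ le_sup_left)
  have hbp : b ≠ p := fun e => hpab (e ▸ le_sup_right)
  have hH : rk (p ⊔ a ⊔ b) = 3 := by
    have h2 : p ⊔ a ⊔ b = a ⊔ b ⊔ p := by rw [sup_assoc, sup_comm]
    rw [h2, rk_sup_atom (hA p hp) hpab, rk_line (hA _ ha) (hA _ hb) hab]
  have hbk : ¬ b ≤ a ⊔ p := by
    intro hle
    have h1 : p ⊔ a ⊔ b = a ⊔ p := by rw [sup_comm p a]; exact sup_eq_left.mpr hle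
    rw [h1, rk_line (hA _ ha) (hA _ hp) hap] at hH
    omega
  have h1 := h (p ⊔ a ⊔ b) hH a ha p hp hap (le_sup_right.trans le_sup_left)
    (le_sup_left.trans le_sup_left) ⟨b, hb, le_sup_right, hbk⟩
  have hsub : pen A a (a ⊔ p) (p ⊔ a ⊔ b) ⊆ {a ⊔ b} := by
    intro g hg
    obtain ⟨z, hz, hzH, hzk, rfl⟩ := mem_pen.mp hg
    rw [Finset.mem_singleton]
    have hzp : z ≠ p := fun e => hzk (e ▸ le_sup_right)
    have hzab : z ≤ a ⊔ b := hcon z hz hzH hzp
    have hza : a ≠ z := fun e => hzk (e ▸ le_sup_left)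
    exact eq_of_le_of_rk (sup_le le_sup_left hzab)
      (by rw [rk_line (hA _ ha) (hA _ hb) hab, rk_line (hA _ ha) (hA _ hz) hza])
  have h2 : ∑ g ∈ pen A a (a ⊔ p) (p ⊔ a ⊔ b), (1 : ℚ) / (A.filter (· ≤ g)).card
      ≤ ∑ g ∈ ({a ⊔ b} : Finset L), (1 : ℚ) / (A.filter (· ≤ g)).card :=
    Finset.sum_le_sum_of_subset_of_nonneg hsub (fun _ _ _ => by positivity)
  rw [Finset.sum_singleton] at h2
  have h3 : 2 ≤ (A.filter (· ≤ a ⊔ b)).card := by
    have h4 : ({a, b} : Finset L) ⊆ A.filter (· ≤ a ⊔ b) := by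
      intro z hz
      rw [Finset.mem_insert, Finset.mem_singleton] at hz
      rw [Finset.mem_filter]
      rcases hz with rfl | rfl
      · exact ⟨ha, le_sup_left⟩
      · exact ⟨hb, le_sup_right⟩
    have h5 := Finset.card_le_card h4
    rwa [Finset.card_pair hab] at h5
  have h4 : (1 : ℚ) / (A.filter (· ≤ a ⊔ b)).card ≤ 1 / 2 :=
    one_div_le_one_div_of_le (by norm_num) (by exact_mod_cast h3)
  linarith

/-- The lines through `x` in `H` other than `c ⊔ x`, as a set. -/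
theorem finsum_eq [DecidableEq L] [DecidableRel (α := L) (· ≤ ·)] (A : Finset L) (x c H : L) :
    (∑ᶠ g ∈ {g : L | ∃ z ∈ A, z ≤ H ∧ ¬ z ≤ x ⊔ c ∧ g = x ⊔ z},
      (1 : ℚ) / {a ∈ (A : Set L) | a ≤ g}.ncard) =
      ∑ g ∈ pen A x (x ⊔ c) H, (1 : ℚ) / (A.filter (· ≤ g)).card := by
  have h1 : {g : L | ∃ z ∈ A, z ≤ H ∧ ¬ z ≤ x ⊔ c ∧ g = x ⊔ z} =
      ((pen A x (x ⊔ c) H : Finset L) : Set L) := by
    ext g
    simp only [Set.mem_ofPred_eq, Finset.mem_coe, mem_pen]
    constructor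
    · rintro ⟨z, h1, h2, h3, h4⟩
      exact ⟨z, h1, h2, h3, h4.symm⟩
    · rintro ⟨z, h1, h2, h3, h4⟩
      exact ⟨z, h1, h2, h3, h4.symm⟩
  rw [h1, finsum_mem_coe_finset]
  apply Finset.sum_congr rfl
  intro g _
  have h2 : {a ∈ (A : Set L) | a ≤ g} = ((A.filter (· ≤ g) : Finset L) : Set L) := by
    ext a
    simp
  rw [h2, Set.ncard_coe_finset]

end aux

/-- **Main theorem.** -/
theorem result :
    ∀ (L : Type) [Lattice L] [BoundedOrder L] [Fintype L] [IsUpperModularLattice L],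
      (∀ x : L, ∃ s : Finset L, (∀ a ∈ s, IsAtom a) ∧ s.sup id = x) →
      Order.height (⊤ : L) = 4 →
      ((∃ (K V : Type) (_ : Field K) (_ : LinearOrder K) (_ : IsStrictOrderedRing K)
          (_ : AddCommGroup V) (_ : Module K V) (v : L → V),
          ∀ s : Finset L, (∀ a ∈ s, IsAtom a) →
            Order.height (s.sup id) = (Module.finrank K (Submodule.span K (v '' (s : Set L))) : ℕ∞)) ∨
        (∃ (n : ℕ) (A : ℕ → Finset L), (∀ a, a ∈ A 0 ↔ IsAtom a) ∧
          (∀ i < n, ∃ p ∈ A i, ∃ a ∈ A i, ∃ b ∈ A i, a ≠ b ∧ ¬ p ≤ a ⊔ b ∧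
            (∀ z ∈ A i, z ≤ p ⊔ a ⊔ b → z = p ∨ z ≤ a ⊔ b) ∧
            ∀ z, z ∈ A (i + 1) ↔ z ∈ A i ∧ z ≠ p) ∧
          (Order.height ((A n).sup id) ≤ 3 ∨
            ∀ H : L, Order.height H = 3 → ∀ x ∈ A n, ∀ c ∈ A n, x ≠ c → x ≤ H → c ≤ H →
              (∃ z ∈ A n, z ≤ H ∧ ¬ z ≤ x ⊔ c) →
              (1 : ℚ) ≤ ∑ᶠ g ∈ {g : L | ∃ z ∈ A n, z ≤ H ∧ ¬ z ≤ x ⊔ c ∧ g = x ⊔ z},
                (1 : ℚ) / {a ∈ (A n : Set L) | a ≤ g}.ncard))) →
      ∃ (t : ℕ) (n : Fin t → ℕ) (φ : ∀ i : Fin t, Set (Fin (n i)) → L),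
        (∀ i, Function.Injective (φ i)) ∧
        (∀ i (a b : Set (Fin (n i))), a ⋖ b → φ i a ⋖ φ i b) ∧
        (∀ i, Order.height (⊤ : L) ≤ Order.height (φ i ⊥) + Order.height (φ i ⊤)) ∧
        (∀ x : L, ∃! p : (Σ i : Fin t, Set (Fin (n i))), φ p.1 p.2 = x) := by
  intro L _ _ _ _ hat hr h
  classical
  have hr' : rk (⊤ : L) = 4 := by
    rw [← coe_rk] at hr
    exact_mod_cast hr
  apply HasPack.to_packing
  have hsup : ∀ A : Finset L, (∀ a, a ∈ A ↔ IsAtom a) → rk (A.sup id) = 4 := by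
    intro A hA
    obtain ⟨s, hs, hst⟩ := hat ⊤
    have h1 : A.sup id = ⊤ := by
      apply top_unique
      rw [← hst]
      exact Finset.sup_mono (fun a ha => (hA a).mpr (hs a ha))
    rw [h1, hr']
  rcases h with ⟨K, V, _, _, _, _, _, v, hv⟩ | ⟨n, A, hA0, hstep, hend⟩
  · have hrep : Pool.Agent.Helper61.Motz.Rep K v := by
      intro s hs
      have h1 := hv s hs
      rw [← coe_rk] at h1
      exact_mod_cast h1
    have hmem : ∀ a, a ∈ Finset.univ.filter (fun a : L => IsAtom a) ↔ IsAtom a :=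
      fun a => by simp
    refine hasPack_of_red hat hr' hmem (crit4_all ?_ _ _ rfl (fun a ha => (hmem a).mp ha)
      (hsup _ hmem))
    intro A hA hrA hcore
    exfalso
    obtain ⟨p, hp, a, ha, b, hb, hab, hpab, hz⟩ := hrep.mz A hA hrA
    obtain ⟨z, hzA, hzH, hzp, hzab⟩ := hcore p hp a ha b hb hab hpab
    rcases hz z hzA hzH with h1 | h1
    · exact hzp h1
    · exact hzab h1
  · have hat' : ∀ i ≤ n, ∀ a ∈ A i, IsAtom a := by
      intro i
      induction i with
      | zero => exact fun _ a ha => (hA0 a).mp ha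
      | succ i ih =>
        intro hi a ha
        obtain ⟨p, -, a', -, b', -, -, -, -, hz⟩ := hstep i (by omega)
        exact ih (by omega) a ((hz a).mp ha).1
    have hlast : Red (A n) := by
      rcases hend with h1 | h1
      · apply Red.low
        rw [← coe_rk] at h1
        exact_mod_cast h1
      · have hth : Thick (A n) := by
          intro H hH x hx c hc hxc hxH hcH hz
          rw [← finsum_eq]
          exact h1 H (by rw [← coe_rk, hH]; rfl) x hx c hc hxc hxH hcH hz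
        exact Red.thick (core_of_thick (hat' n le_rfl) hth) hth
    have hred : ∀ k ≤ n, Red (A (n - k)) := by
      intro k
      induction k with
      | zero => exact fun _ => hlast
      | succ k ih =>
        intro hk
        obtain ⟨p, hp, a, ha, b, hb, hab, hpab, hz, hz'⟩ := hstep (n - (k + 1)) (by omega)
        refine Red.step hp ha hb hab hpab hz ?_
        have e1 : (A (n - (k + 1))).erase p = A (n - k) := by
          have e2 : n - (k + 1) + 1 = n - k := by omega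
          rw [e2] at hz'
          ext z
          rw [Finset.mem_erase, hz' z]
          exact and_comm
        rw [e1]
        exact ih (by omega)
    have h0 := hred n le_rfl
    rw [Nat.sub_self] at h0
    exact hasPack_of_red hat hr' hA0 (crit4_of_red h0 (hat' 0 (Nat.zero_le _)) (hsup _ hA0))

end Pool.Agent.Results.MP_47cd0b_co.PeeledRankFour
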