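import Pool.Agent.Helper83.BQ.BigPlane
import Pool.Agent.Helper80.LP.Many
import Pool.Agent.Helper63.CR.Wrap

/-!
# Boolean packings of the geometric lattices of rank four with short lines

Let `s` be such that every line (element of rank two) of a geometric lattice of rank four has at
most `s` points.  If there are at least `(s + 3) ^ 3` points, or some plane has at least
`s ^ 2 + 3 * s + 1` points, then the lattice has a Boolean packing.  For comparison, the lattice
of subspaces of a four dimensional vector space over a field with `s - 1` elements has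
`s ^ 3 - 2 * s ^ 2 + 2 * s` points and `s ^ 2 - s + 1` points on every plane.

The proof: all points outside a base choose two lines and their plane at the same time, by a
fractional version of Hall's theorem for hypergraphs; if there is a large plane `Q`, a largest one
is taken, the base is `Q` and one more point, and a point outside the base uses lines to two points
of `Q`; otherwise the base is a basis and a point uses lines to any two points.
-/

set_option autoImplicit false

namespace Pool.Agent.Results.MP_47cd0b_co.ShortLines

open Pool.Agent.Helper28.BPack Pool.Agent.Helper61.Motz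

/-- **Main theorem.** -/
theorem result :
    ∀ (L : Type) [Lattice L] [BoundedOrder L] [Fintype L] [IsUpperModularLattice L],
      (∀ x : L, ∃ s : Finset L, (∀ a ∈ s, IsAtom a) ∧ s.sup id = x) →
      Order.height (⊤ : L) = 4 →
      (∃ s : ℕ, (∀ g : L, Order.height g = 2 → {a : L | IsAtom a ∧ a ≤ g}.ncard ≤ s) ∧
        ((s + 3) ^ 3 ≤ {a : L | IsAtom a}.ncard ∨
          ∃ P : L, Order.height P = 3 ∧
            s ^ 2 + 3 * s + 1 ≤ {a : L | IsAtom a ∧ a ≤ P}.ncard)) →
      ∃ (t : ℕ) (n : Fin t → ℕ) (φ : ∀ i : Fin t, Set (Fin (n i)) → L),
        (∀ i, Function.Injective (φ i)) ∧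
        (∀ i (a b : Set (Fin (n i))), a ⋖ b → φ i a ⋖ φ i b) ∧
        (∀ i, Order.height (⊤ : L) ≤ Order.height (φ i ⊥) + Order.height (φ i ⊤)) ∧
        (∀ x : L, ∃! p : (Σ i : Fin t, Set (Fin (n i))), φ p.1 p.2 = x) := by
  intro L _ _ _ _ hat hr h
  refine Pool.Agent.Helper63.CR.packing_of_two ?_ ?_ hat hr h
  · intro _ _ A hA hrA s hs Q hQ hN
    refine Pool.Agent.Helper83.BQ.crit4_bigplane hA hrA s ?_ hQ ?_
    · intro g hg
      convert hs g hg
    · convert hN
  · intro _ _ A hA hrA s hs hP hn
    refine Pool.Agent.Helper80.LP.crit4_many hA hrA s ?_ ?_ hn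
    · intro g hg
      convert hs g hg
    · intro P hP'
      convert hP P hP'

end Pool.Agent.Results.MP_47cd0b_co.ShortLines
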