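import Pool.Agent.Helper74.RC.ShortH
import Pool.Agent.Helper8.ManyLines.Core

/-!
# Boolean packings of rank four geometric lattices with weighted rows, or with a rich plane
-/

set_option autoImplicit false
set_option linter.unusedSectionVars false

namespace Pool.Agent.Results.MP_47cd0b_co.ShortRows

open Pool.Agent.Helper28.BPack Pool.Agent.Helper61.Motz Pool.Agent.Helper38.Thick
open Pool.Agent.Helper8.ManyLines

/-- **Main theorem.** -/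
theorem result :
    ∀ (L : Type) [Lattice L] [BoundedOrder L] [Fintype L] [IsUpperModularLattice L],
      (∀ x : L, ∃ s : Finset L, (∀ a ∈ s, IsAtom a) ∧ s.sup id = x) →
      Order.height (⊤ : L) = 4 →
      (∃ (n : ℕ) (A : ℕ → Finset L), (∀ a, a ∈ A 0 ↔ IsAtom a) ∧
        (∀ i < n, ∃ p ∈ A i, ∃ a ∈ A i, ∃ b ∈ A i, a ≠ b ∧ ¬ p ≤ a ⊔ b ∧
          (∀ z ∈ A i, z ≤ p ⊔ a ⊔ b → z = p ∨ z ≤ a ⊔ b) ∧
          ∀ z, z ∈ A (i + 1) ↔ z ∈ A i ∧ z ≠ p) ∧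
        ∃ u Q : L, Order.height u = 2 ∧ Order.height Q = 3 ∧ u ≤ Q ∧
          2 ≤ {a ∈ (A n : Set L) | a ≤ u}.ncard ∧ (∃ z ∈ A n, z ≤ Q ∧ ¬ z ≤ u) ∧
          (((∀ p ∈ A n, ∀ a ∈ A n, ∀ b ∈ A n, a ≠ b → ¬ p ≤ a ⊔ b →
                ∃ z ∈ A n, z ≤ p ⊔ a ⊔ b ∧ z ≠ p ∧ ¬ z ≤ a ⊔ b) ∧
              ∃ w : L → L → ℝ, (∀ x c, 0 ≤ w x c) ∧
                (∀ x ∈ A n, ¬ x ≤ Q → ∀ d ∈ A n, d ≤ u →
                  1 ≤ ∑ᶠ c ∈ {c ∈ (A n : Set L) | c ≤ u ∧ c ≠ d}, w x c) ∧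
                ∀ x ∈ A n, ¬ x ≤ Q → ∀ z ∈ A n, z ≠ x → (∀ c ∈ A n, c ≤ u → ¬ c ≤ x ⊔ z) →
                  ∀ y : L → L, (∀ c ∈ A n, c ≤ u → y c ∈ A n ∧ y c ≤ x ⊔ z ∧ ¬ y c ≤ Q) →
                  ∀ d ∈ A n, d ≤ u →
                  ∑ᶠ v ∈ {v ∈ (A n : Set L) | v ≤ y d ⊔ d ∧ ¬ v ≤ Q}, w v d +
                  ∑ᶠ c ∈ {c ∈ (A n : Set L) | c ≤ u}, w (y c) c /
                    {g : L | ∃ v ∈ A n, v ≤ x ⊔ z ⊔ c ∧ ¬ v ≤ y c ⊔ c ∧ g = y c ⊔ v}.ncard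
                  ≤ 1) ∨
            ∃ (P : L) (r m : L → L), Order.height P = 3 ∧ u ≤ P ∧ P ≠ Q ∧
              (∃ z ∈ A n, z ≤ P ∧ ¬ z ≤ u) ∧
              (∀ x ∈ A n, ¬ x ≤ Q →
                r (u ⊔ x) ∈ A n ∧ ¬ r (u ⊔ x) ≤ u ∧ r (u ⊔ x) ≤ u ⊔ x) ∧
              (∀ x ∈ A n, ¬ x ≤ Q → r (u ⊔ x) ≠ x →
                m x ∈ A n ∧ m x ≤ u ∧ ¬ r (u ⊔ x) ≤ x ⊔ m x) ∧
              (∀ x ∈ A n, ¬ x ≤ Q → r (u ⊔ x) ≠ x → ∀ y ∈ A n, ¬ y ≤ Q → r (u ⊔ y) ≠ y →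
                x ⊔ m x = y ⊔ m y → x = y) ∧
              ∀ c ∈ A n, c ≤ u →
                {G : L | ∃ x ∈ A n, ¬ x ≤ P ∧ ¬ x ≤ Q ∧ r (u ⊔ x) ≠ x ∧ m x = c ∧
                    G = u ⊔ x}.ncard ≤
                  {y ∈ (A n : Set L) | y ≤ P ∧ ¬ y ≤ Q ∧ r P ≠ y ∧ m y = c}.ncard)) →
      ∃ (t : ℕ) (n : Fin t → ℕ) (φ : ∀ i : Fin t, Set (Fin (n i)) → L),
        (∀ i, Function.Injective (φ i)) ∧
        (∀ i (a b : Set (Fin (n i))), a ⋖ b → φ i a ⋖ φ i b) ∧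
        (∀ i, Order.height (⊤ : L) ≤ Order.height (φ i ⊥) + Order.height (φ i ⊤)) ∧
        (∀ x : L, ∃! p : (Σ i : Fin t, Set (Fin (n i))), φ p.1 p.2 = x) := by
  intro L _ _ _ _ hat hr h
  classical
  have hr' : rk (⊤ : L) = 4 := by
    rw [← coe_rk] at hr
    exact_mod_cast hr
  apply HasPack.to_packing
  obtain ⟨n, A, hA0, hstep, u, Q, hu, hQ, huQ, hU, hQA, hend⟩ := h
  have hsup : rk ((A 0).sup id) = 4 := by
    obtain ⟨s, hs, hst⟩ := hat ⊤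
    have h1 : (A 0).sup id = ⊤ := by
      apply top_unique
      rw [← hst]
      exact Finset.sup_mono (fun a ha => (hA0 a).mpr (hs a ha))
    rw [h1, hr']
  have hat' : ∀ i ≤ n, ∀ a ∈ A i, IsAtom a := by
    intro i
    induction i with
    | zero => exact fun _ a ha => (hA0 a).mp ha
    | succ i ih =>
      intro hi a ha
      obtain ⟨p, -, a', -, b', -, -, -, -, hz⟩ := hstep i (by omega)
      exact ih (by omega) a ((hz a).mp ha).1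
  have hlast : rk ((A n).sup id) = 4 → Crit4 (A n) := by
    intro hrn
    rcases hend with ⟨hcore, h1⟩ | h1
    · exact Pool.Agent.Helper74.RC.RB.crit4_T_height (hat' n le_rfl) hrn hu hQ huQ hU hQA hcore h1
    · exact Pool.Agent.Helper74.RC.RB.crit4_V_height (hat' n le_rfl) hu hQ huQ hU hQA h1
  have hred : ∀ k ≤ n, rk ((A (n - k)).sup id) = 4 → Crit4 (A (n - k)) := by
    intro k
    induction k with
    | zero => exact fun _ => hlast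
    | succ k ih =>
      intro hk hrk
      obtain ⟨p, hp, a, ha, b, hb, hab, hpab, hz, hz'⟩ := hstep (n - (k + 1)) (by omega)
      refine crit4_step (hat' _ (by omega)) hrk hp ha hb hab hpab hz ?_
      have e1 : (A (n - (k + 1))).erase p = A (n - k) := by
        have e2 : n - (k + 1) + 1 = n - k := by omega
        rw [e2] at hz'
        ext z
        rw [Finset.mem_erase, hz' z]
        exact and_comm
      rw [e1]
      exact ih (by omega)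
  have h0 := hred n le_rfl
  rw [Nat.sub_self] at h0
  exact hasPack_of_red hat hr' hA0 (h0 hsup)

end Pool.Agent.Results.MP_47cd0b_co.ShortRows
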